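import Mathlib

/-!
# The contraction principle in complete F-symmetric spaces
-/

open Filter Topology

namespace Pool.Agent.Results.MP_9f7db3_an.FSymmetricBanach

/-- `d` is a symmetric. -/
structure IsSymmetricDist {X : Type*} (d : X → X → ℝ) : Prop where
  nonneg : ∀ x y, 0 ≤ d x y
  symm : ∀ x y, d x y = d y x
  eq_zero_iff : ∀ x y, d x y + d y x = 0 ↔ x = y

/-- Condition (F). -/
def CondF {X : Type*} (d : X → X → ℝ) : Prop :=
  ∀ ε : ℝ, 0 < ε → ∃ δ : ℝ, 0 < δ ∧ ∀ x y z : X, d x y ≤ δ → d y z ≤ δ → d x z ≤ ε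

/-- `u` is Cauchy: `d (u n) (u m) → 0` as `n, m → ∞`. -/
def IsCauchy {X : Type*} (d : X → X → ℝ) (u : ℕ → X) : Prop :=
  Tendsto (fun p : ℕ × ℕ => d (u p.1) (u p.2)) atTop (𝓝 0)

/-- `u` converges to `x`: `d x (u n) → 0`. -/
def ConvergesTo {X : Type*} (d : X → X → ℝ) (u : ℕ → X) (x : X) : Prop :=
  Tendsto (fun n : ℕ => d x (u n)) atTop (𝓝 0)

/-- Every Cauchy sequence converges. -/
def IsCompleteDist {X : Type*} (d : X → X → ℝ) : Prop :=
  ∀ u : ℕ → X, IsCauchy d u → ∃ x : X, ConvergesTo d u x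

/-- `g` is a contraction. -/
def IsContraction {X : Type*} (d : X → X → ℝ) (g : X → X) : Prop :=
  ∃ c : ℝ, 0 ≤ c ∧ c < 1 ∧ ∀ x y : X, d (g x) (g y) ≤ c * d x y

section
variable {X : Type*} {d : X → X → ℝ}

lemma dist_self (hd : IsSymmetricDist d) (x : X) : d x x = 0 := by
  have := (hd.eq_zero_iff x x).2 rfl
  linarith

lemma eq_of_zero (hd : IsSymmetricDist d) {x y : X} (h : d x y = 0) : x = y := by
  apply (hd.eq_zero_iff x y).1
  rw [← hd.symm x y, h]; norm_num

lemma iterate_le {g : X → X} {c : ℝ} (hc0 : 0 ≤ c) (hg : ∀ x y : X, d (g x) (g y) ≤ c * d x y)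
    (n : ℕ) (x y : X) : d (g^[n] x) (g^[n] y) ≤ c ^ n * d x y := by
  induction n with
  | zero => simp
  | succ n ih =>
    rw [Function.iterate_succ_apply', Function.iterate_succ_apply']
    calc d (g (g^[n] x)) (g (g^[n] y)) ≤ c * d (g^[n] x) (g^[n] y) := hg _ _
      _ ≤ c * (c ^ n * d x y) := mul_le_mul_of_nonneg_left ih hc0
      _ = c ^ (n + 1) * d x y := by ring

lemma cauchy_orbit (hd : IsSymmetricDist d) (hF : CondF d) {g : X → X} {c : ℝ} (hc0 : 0 ≤ c)
    (hc1 : c < 1) (hg : ∀ x y : X, d (g x) (g y) ≤ c * d x y) (x : X) :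
    IsCauchy d (fun n => g^[n] x) := by
  -- it suffices to bound for n ≤ m
  have key : ∀ ε : ℝ, 0 < ε → ∃ N : ℕ, ∀ n m : ℕ, N ≤ n → n ≤ m →
      d (g^[n] x) (g^[m] x) ≤ ε := by
    intro ε' hε'
    obtain ⟨ε, hε, hFε⟩ := hF ε' hε'
    obtain ⟨δ₀, hδ₀, hFδ⟩ := hF ε hε
    set δ := min δ₀ ε with hδdef
    have hδ : 0 < δ := lt_min hδ₀ hε
    -- choose k
    have hpow : Tendsto (fun k : ℕ => c ^ k) atTop (𝓝 0) :=
      tendsto_pow_atTop_nhds_zero_of_lt_one hc0 hc1
    have h1 : Tendsto (fun k : ℕ => c ^ k * ε) atTop (𝓝 0) := by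
      simpa using hpow.mul_const ε
    obtain ⟨k, hk1, hk⟩ : ∃ k : ℕ, 1 ≤ k ∧ c ^ k * ε ≤ δ := by
      have := (h1.eventually (Iic_mem_nhds hδ)).and (eventually_ge_atTop 1)
      obtain ⟨k, hk⟩ := this.exists
      exact ⟨k, hk.2, hk.1⟩
    -- bound M for d x (g^[i] x), i ≤ k
    set M : ℝ := ∑ i ∈ Finset.range (k + 1), d x (g^[i] x) with hM
    have hMi : ∀ i, i ≤ k → d x (g^[i] x) ≤ M := by
      intro i hi
      exact Finset.single_le_sum (f := fun i => d x (g^[i] x)) (fun j _ => hd.nonneg _ _)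
        (Finset.mem_range.2 (by omega))
    have h2 : Tendsto (fun n : ℕ => c ^ n * M) atTop (𝓝 0) := by
      simpa using hpow.mul_const M
    obtain ⟨N, hN⟩ := (eventually_atTop.1 (h2.eventually (Iic_mem_nhds hδ)))
    have hstep : ∀ n i : ℕ, N ≤ n → i ≤ k → d (g^[n] x) (g^[n + i] x) ≤ δ := by
      intro n i hn hi
      calc d (g^[n] x) (g^[n + i] x) = d (g^[n] x) (g^[n] (g^[i] x)) := by
            rw [Function.iterate_add_apply]
        _ ≤ c ^ n * d x (g^[i] x) := iterate_le hc0 hg n _ _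
        _ ≤ c ^ n * M := mul_le_mul_of_nonneg_left (hMi i hi) (pow_nonneg hc0 n)
        _ ≤ δ := hN n hn
    have hblock : ∀ j n : ℕ, N ≤ n → d (g^[n] x) (g^[n + j * k] x) ≤ ε := by
      intro j
      induction j with
      | zero =>
        intro n hn
        simp only [zero_mul, add_zero]
        rw [dist_self hd]; exact hε.le
      | succ j ih =>
        intro n hn
        apply hFδ (g^[n] x) (g^[n + k] x)
        · exact (hstep n k hn le_rfl).trans (min_le_left _ _)
        · have e1 : g^[n + k] x = g^[k] (g^[n] x) := by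
            rw [Nat.add_comm, Function.iterate_add_apply]
          have e2 : g^[n + (j + 1) * k] x = g^[k] (g^[n + j * k] x) := by
            rw [← Function.iterate_add_apply, show n + (j + 1) * k = k + (n + j * k) by ring]
          rw [e1, e2]
          calc d (g^[k] (g^[n] x)) (g^[k] (g^[n + j * k] x))
              ≤ c ^ k * d (g^[n] x) (g^[n + j * k] x) := iterate_le hc0 hg k _ _
            _ ≤ c ^ k * ε := mul_le_mul_of_nonneg_left (ih n hn) (pow_nonneg hc0 k)
            _ ≤ δ := hk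
            _ ≤ δ₀ := min_le_left _ _
    refine ⟨N, fun n m hn hnm => ?_⟩
    have hm : m = (n + ((m - n) / k) * k) + (m - n) % k := by
      have := Nat.div_add_mod (m - n) k
      rw [mul_comm] at this
      omega
    apply hFε _ (g^[n + ((m - n) / k) * k] x)
    · exact hblock _ n hn
    · have h3 := hstep (n + ((m - n) / k) * k) ((m - n) % k) (by omega)
        (Nat.mod_lt _ (by omega)).le
      rw [← hm] at h3
      exact h3.trans (min_le_right _ _)
  rw [IsCauchy, Metric.tendsto_nhds]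
  intro ε hε
  obtain ⟨N, hN⟩ := key (ε / 2) (half_pos hε)
  rw [eventually_atTop]
  refine ⟨(N, N), ?_⟩
  rintro ⟨n, m⟩ ⟨hn, hm⟩
  simp only at hn hm
  rw [Real.dist_eq, sub_zero, abs_of_nonneg (hd.nonneg _ _)]
  rcases le_total n m with h | h
  · exact (hN n m hn h).trans_lt (half_lt_self hε)
  · show d (g^[n] x) (g^[m] x) < ε
    rw [hd.symm]
    exact (hN m n hm h).trans_lt (half_lt_self hε)

lemma limit_unique (hd : IsSymmetricDist d) (hF : CondF d) {u : ℕ → X} {x y : X}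
    (hx : ConvergesTo d u x) (hy : ConvergesTo d u y) : x = y := by
  apply eq_of_zero hd
  apply le_antisymm _ (hd.nonneg _ _)
  apply le_of_forall_pos_le_add
  intro ε hε
  rw [zero_add]
  obtain ⟨δ, hδ, h⟩ := hF ε hε
  obtain ⟨n, hn1, hn2⟩ := ((hx.eventually (Iic_mem_nhds hδ)).and
    (hy.eventually (Iic_mem_nhds hδ))).exists
  exact h x (u n) y hn1 (by rw [hd.symm]; exact hn2)

end

theorem result {X : Type*} [Nonempty X] (d : X → X → ℝ) (hd : IsSymmetricDist d)
    (hF : CondF d) (hc : IsCompleteDist d) (g : X → X) (hg : IsContraction d g) :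
    ∃ p : X, g p = p ∧ (∀ q : X, g q = q → q = p) ∧
      ∀ x : X, ConvergesTo d (fun n => g^[n] x) p := by
  obtain ⟨c, hc0, hc1, hg⟩ := hg
  have huniq : ∀ p q : X, g p = p → g q = q → p = q := by
    intro p q hp hq
    apply eq_of_zero hd
    have h1 := hg p q
    rw [hp, hq] at h1
    have h2 := hd.nonneg p q
    nlinarith
  have hlim : ∀ x : X, ∃ p : X, ConvergesTo d (fun n => g^[n] x) p ∧ g p = p := by
    intro x
    obtain ⟨p, hp⟩ := hc _ (cauchy_orbit hd hF hc0 hc1 hg x)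
    refine ⟨p, hp, ?_⟩
    have h1 : ConvergesTo d (fun n => g^[n + 1] x) p := hp.comp (tendsto_add_atTop_nat 1)
    have h2 : ConvergesTo d (fun n => g^[n + 1] x) (g p) := by
      have h3 : Tendsto (fun n : ℕ => c * d p (g^[n] x)) atTop (𝓝 0) := by
        simpa using hp.const_mul c
      apply squeeze_zero (fun n => hd.nonneg _ _) (fun n => ?_) h3
      show d (g p) (g^[n + 1] x) ≤ c * d p (g^[n] x)
      rw [Function.iterate_succ_apply']
      exact hg _ _
    exact (limit_unique hd hF h1 h2).symm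
  obtain ⟨x₀⟩ := ‹Nonempty X›
  obtain ⟨p, -, hgp⟩ := hlim x₀
  refine ⟨p, hgp, fun q hq => huniq q p hq hgp, fun x => ?_⟩
  obtain ⟨q, hq, hgq⟩ := hlim x
  rwa [huniq q p hgq hgp] at hq

end Pool.Agent.Results.MP_9f7db3_an.FSymmetricBanach
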